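import Pool.Agent.Work.MP_f6e909_al.RG.Main

/-!
# MP_f6e909_al: almost all right-angled Artin groups are not profinitely rigid
-/

namespace Pool.Agent.Results.MP_f6e909_al.AlmostAllRightAngled

open ProfArtin Filter Topology

open Classical in
/-- For every fixed `p` with `0 < p < 1`, the probability that the right-angled Artin group of the
random graph `G(n, p)` is profinitely rigid tends to `0` as `n` tends to infinity. For `p = 1/2`
this says that the proportion of the graphs on `n` labelled vertices whose right-angled Artin
group is profinitely rigid tends to `0`. -/
theorem result (p : ℝ) (h0 : 0 < p) (h1 : p < 1) :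
    Tendsto (fun n : ℕ => ∑ G : SimpleGraph (Fin n),
      if ProfinitelyRigid (ArtinGroup (raag G)) then erWeight p G else 0) atTop (𝓝 0) :=
  RG.main_limit h0 h1

end Pool.Agent.Results.MP_f6e909_al.AlmostAllRightAngled
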