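import Pool.Agent.Work.MP_f6e909_al.GQ.Final

/-!
# MP_f6e909_al: Grothendieck pairs in Artin groups which need not be direct products
-/

namespace Pool.Agent.Results.MP_f6e909_al.DominatedSquares

open ProfArtin

/-- Let `X`, `Y` be sets of generators of an Artin group which commute with each other, each of
them split in two nonempty blocks with label `∞` between different blocks, such that every other
generator `w` has only even or infinite labels with `X ∪ Y` and either has only labels `∞` with
`X ∪ Y`, or has label `2` with at least one generator of each block of `X`, or has label `2` with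
at least one generator of each block of `Y`. Then the Artin group is not profinitely rigid. (In
Mathlib's convention the entry `0` of a Coxeter matrix means `∞`.) -/
theorem result {S : Type} [Finite S] (M : CoxeterMatrix S) (X Y : Set S) (c d : S → Fin 2)
    (hX : ∀ i, ∃ x ∈ X, c x = i) (hY : ∀ i, ∃ y ∈ Y, d y = i)
    (hXX : ∀ x ∈ X, ∀ x' ∈ X, c x ≠ c x' → M x x' = 0)
    (hYY : ∀ y ∈ Y, ∀ y' ∈ Y, d y ≠ d y' → M y y' = 0)
    (hXY : ∀ x ∈ X, ∀ y ∈ Y, M x y = 2)
    (hev : ∀ w, w ∉ X → w ∉ Y → ∀ z ∈ X ∪ Y, Even (M w z))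
    (hW : ∀ w, w ∉ X → w ∉ Y → (∀ z ∈ X ∪ Y, M w z = 0) ∨
      (∀ i, ∃ x ∈ X, c x = i ∧ M w x = 2) ∨ (∀ i, ∃ y ∈ Y, d y = i ∧ M w y = 2)) :
    ¬ ProfinitelyRigid (ArtinGroup M) :=
  gq_main M X Y c d ⟨hX, hY, hXX, hYY, hXY, hev, hW⟩

end Pool.Agent.Results.MP_f6e909_al.DominatedSquares
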