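import Pool.Agent.Work.MP_f6e909_al.TB.Main

/-!
# Artin groups of type `B n` (`n = 5` or `n ≥ 7`) are not profinitely rigid

The same holds for the products of such a group with an Artin group with trivial center.
-/

namespace Pool.Agent.Results.MP_f6e909_al.TypeBNotRigid

open ProfArtin

/-- Let `M` be a Coxeter matrix on a finite set `S` and `T ⊆ S` a set of generators such that the
restriction of `M` to `T` is of type `B n`, `n = 5` or `n ≥ 7`, all entries between `T` and its
complement are `2`, and the Artin group on the complement has trivial center (for instance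
`T = S`). Then the Artin group of `M` is not profinitely rigid. -/
theorem result {S : Type} [Finite S] (M : CoxeterMatrix S) (T : Set S) {n : ℕ}
    (hn : n = 5 ∨ 7 ≤ n) (hT : HasType M T (CoxeterMatrix.B n))
    (hcomm : ∀ s ∈ T, ∀ t ∉ T, M s t = 2)
    (hcen : Subgroup.center (ArtinGroup (restrict M Tᶜ)) = ⊥) :
    ¬ ProfinitelyRigid (ArtinGroup M) := by
  obtain ⟨e, he⟩ := hT
  exact not_rigid_B M T hcomm hcen hn e he

end Pool.Agent.Results.MP_f6e909_al.TypeBNotRigid
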