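import Pool.Agent.Work.MP_f6e909_al.Final

/-!
# Artin groups of type `A n` (`n ≥ 3`) and `D n` (`n ≥ 4`) are not profinitely rigid

The braid groups on at least four strands, the Artin groups of type `D n`, `n ≥ 4`, and the
products of such a group with an Artin group with trivial center are not profinitely rigid.
-/

namespace Pool.Agent.Results.MP_f6e909_al.TypesADNotRigid

open ProfArtin

/-- Let `M` be a Coxeter matrix on a finite set `S` and `T ⊆ S` a set of generators such that the
restriction of `M` to `T` is of type `A n`, `n ≥ 3`, or of type `D n`, `n ≥ 4`, all entries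
between `T` and its complement are `2`, and the Artin group on the complement has trivial center
(for instance `T = S`). Then the Artin group of `M` is not profinitely rigid. -/
theorem result {S : Type} [Finite S] (M : CoxeterMatrix S) (T : Set S)
    (hT : (∃ n, 3 ≤ n ∧ HasType M T (CoxeterMatrix.A n)) ∨ (∃ n, 4 ≤ n ∧ HasType M T (typeD n)))
    (hcomm : ∀ s ∈ T, ∀ t ∉ T, M s t = 2)
    (hcen : Subgroup.center (ArtinGroup (restrict M Tᶜ)) = ⊥) :
    ¬ ProfinitelyRigid (ArtinGroup M) :=
  main M T hT hcomm hcen

end Pool.Agent.Results.MP_f6e909_al.TypesADNotRigid
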